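import Pool.Agent.Work.MP_db9399_xf_helper62.XFrame

/-!
# MP_db9399, all scales: the cluster side, version 4 (helper1, helper62)

Version 3.2 (`MP_db9399_xf`) with the repair of OCB (messages of helper1, Dec 3, 09:44): large needs.

* REC0 (abstract, used inside RGX4): recolouring of the light-light edges between vertices of type B,
  in and across clusters, at the level of pieces.
* RGX4: `PreX4 → RgX4` (REC0 with the offsets = gains of RGX, then RGX). Type B: numbers of the pieces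
  (`sg`, `need`), not of the parts. `tame`: if `b` is free at both ends of a T-edge and has needs
  above `K` there, then the colour of the edge has at one end a need of at least a fifth of their sum.
* SELP4: palettes. Type B: colours with `|sg| ≤ K`.
* OWNX4: as OWNX.
* OCB4: own colours of the pieces of type B, reserved vertices `U` (own colour `cR`) of the short
  pieces of type K.
* BX4: LOCB4 (= XPE + LOCB3) and LOCN3.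
* KX4: from KR.
-/

set_option autoImplicit false

namespace Pool.Agent.Work.MP_db9399_x4

open Finset Classical
open Pool.Agent.Work.MP_db9399_all (nb)
open Pool.Agent.Work.MP_db9399_lt (us)
open Pool.Agent.Work.MP_db9399_da
open Pool.Agent.Work.MP_db9399_xf

universe u

section defs
variable {V : Type u} [Fintype V] {N J : ℕ}

/-! ## REC0 -/

/-- number of the vertices of the side `β` of the piece `n` where `b` is used, plus the offset `δ` -/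
noncomputable def ub (G : SimpleGraph V) (X : XD V N J) (t : V → V → ℕ)
    (δ : Fin N → Bool → ℕ → ℕ) (n : Fin N) (β : Bool) (b : ℕ) : ℕ :=
  ((sV X.P n β).filter (fun v => b ∈ Ft (xt G X) t v)).card + δ n β b

/-- signed number of `b` with offset -/
noncomputable def so (G : SimpleGraph V) (X : XD V N J) (t : V → V → ℕ)
    (δ : Fin N → Bool → ℕ → ℕ) (n : Fin N) (b : ℕ) : ℤ :=
  (ub G X t δ n false b : ℤ) - (ub G X t δ n true b : ℤ)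

/-- need of `b` with offset -/
noncomputable def no (G : SimpleGraph V) (X : XD V N J) (t : V → V → ℕ)
    (δ : Fin N → Bool → ℕ → ℕ) (n : Fin N) (β : Bool) (b : ℕ) : ℕ :=
  ub G X t δ n (!β) b - ub G X t δ n β b

/-- Result of REC0 for `t` (old) and `t1` (new). `Tc n` = colours which were added at vertices of the
piece `n`. -/
structure RcO (G : SimpleGraph V) (d K : ℕ) (X : XD V N J) (t : V → V → ℕ)
    (δ : Fin N → Bool → ℕ → ℕ) (t1 : V → V → ℕ) (Tc : Fin N → Finset ℕ) : Prop where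
  sym : ∀ v w, t1 v w = t1 w v
  lt : ∀ v w, (xt G X).Adj v w → t1 v w < d + 2
  inj : ∀ v, Set.InjOn (t1 v) (nb (xt G X) v : Set V)
  eq : ∀ v w, ¬ Te G X v w → t1 v w = t v w
  tc : ∀ v, InT X Ty.B v → ∀ b ∈ Ft (xt G X) t1 v, b ∉ Ft (xt G X) t v → b ∈ Tc (X.P.pc v)
  tcc : ∀ n, X.P.ty n = Ty.B →
    (K - 1) * (Tc n).card ≤ ∑ b ∈ range (d + 2), (so G X t δ n b).natAbs
  ld : ∀ n, X.P.ty n = Ty.B → ∀ β b,
    ub G X t1 δ n β b ≤ max (ub G X t δ n false b) (ub G X t δ n true b)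
  sum : ∀ n, X.P.ty n = Ty.B →
    ∑ b ∈ range (d + 2), so G X t1 δ n b = ∑ b ∈ range (d + 2), so G X t δ n b
  tot : ∀ n, X.P.ty n = Ty.B → ∀ β,
    ∑ b ∈ range (d + 2), no G X t1 δ n β b ≤ ∑ b ∈ range (d + 2), no G X t δ n β b
  exc : ∀ n, X.P.ty n = Ty.B → ∑ b ∈ range (d + 2), ((so G X t1 δ n b).natAbs - (K - 1)) ≤
    ∑ b ∈ range (d + 2), ((so G X t δ n b).natAbs - (K - 1))
  sup : ∀ m : ℕ, (∀ n, X.P.ty n = Ty.B → ∀ b ∈ range (d + 2), (so G X t δ n b).natAbs ≤ m) →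
    ∀ n, X.P.ty n = Ty.B → ∀ b ∈ range (d + 2), (so G X t1 δ n b).natAbs ≤ m
  neg : ∀ n, X.P.ty n = Ty.B → ∀ β, ∀ D ⊆ range (d + 2),
    ∑ b ∈ D, min (no G X t1 δ n β b) (K - 1) ≤ ∑ b ∈ D, min (no G X t δ n β b) (K - 1) +
      ∑ b ∈ range (d + 2), ((so G X t δ n b).natAbs - (K - 1))
  tame : ∀ v w b, Te G X v w → b < d + 2 → b ∉ Ft (xt G X) t1 v → b ∉ Ft (xt G X) t1 w →
    K < no G X t1 δ (X.P.pc v) (X.P.sd v) b → K < no G X t1 δ (X.P.pc w) (X.P.sd w) b →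
    no G X t1 δ (X.P.pc v) (X.P.sd v) b + no G X t1 δ (X.P.pc w) (X.P.sd w) b <
        4 * no G X t1 δ (X.P.pc v) (X.P.sd v) (t1 v w) ∨
      no G X t1 δ (X.P.pc v) (X.P.sd v) b + no G X t1 δ (X.P.pc w) (X.P.sd w) b <
        4 * no G X t1 δ (X.P.pc w) (X.P.sd w) (t1 v w)

end defs

/-- REC0. PROOF. As long as there is a T-edge `vw` of colour `c` and a colour `b` which is free at both
ends, with needs `x`, `x'` of `b` at the sides of `v`, `w` above `K` and needs `y`, `y'` of `c`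
with `4 y ≤ x + x'`, `4 y' ≤ x + x'`, give `vw` the colour `b`. (`v`, `w` are in different pieces or in
the same side of one piece, `x = x'` in this case, then all numbers change by 2; other T-edges do not
exist.) `Σ so ^ 2` over all pieces falls. Invariants: `sum`, `ld` (the new use is at the side with fewer
uses), `tot`; `exc`: `natAbs (so b)` is at least `K - 1` after the step, so `natAbs (so b) - (K - 1)`
falls by 1 (by 2) and the number of `c` grows by at most this; `sup` (all pieces together):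
`y + 2 ≤ max x x'`; `neg`: if `y < K - 1` then `natAbs (so b) - (K - 1)` falls by the same amount; `tcc`: with
`Tc n` = colours `b` of these steps, `(K - 1) |Tc n| + Σ_b (natAbs (so b) - (K - 1)) +
Σ_(b not in Tc n) min (natAbs (so b)) (K - 1)` does not increase (add `b` to `Tc n` first). -/
def Stmt_REC0 : Prop :=
  ∀ {V : Type u} [Fintype V] {N J : ℕ} (G : SimpleGraph V) (d K : ℕ) (X : XD V N J)
    (t : V → V → ℕ) (δ : Fin N → Bool → ℕ → ℕ), 8 ≤ K → (∀ v w, t v w = t w v) →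
    (∀ v w, (xt G X).Adj v w → t v w < d + 2) →
    (∀ v, Set.InjOn (t v) (nb (xt G X) v : Set V)) →
    ∃ (t1 : V → V → ℕ) (Tc : Fin N → Finset ℕ), RcO G d K X t δ t1 Tc

/-! ## Structures -/

/-- bound for the needs of the colours of the small palettes -/
noncomputable def KX4 (C πk : ℝ) : ℕ := ⌈10 ^ 4 * (C + 5) / (1 - 3 * πk)⌉₊ + 60

section defs
variable {V : Type u} [Fintype V] {N J : ℕ}

/-- numbers of the colours at the pieces of type N: `l` loads, `x` sum of the signed numbers above 4 -/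
structure NuN (l x : ℝ) (S : Fin J → Scl) (G : SimpleGraph V) (d : ℕ) (X : XD V N J)
    (A : PalX) (t : V → V → ℕ) : Prop where
  rN : ∀ n, X.P.ty n = Ty.N → ∀ v, Disjoint (Fp (xt G X) X t n v) (A.Q (X.P.pt v.1))
  ldN : ∀ n, X.P.ty n = Ty.N → ∀ b,
    ((us (Fp (xt G X) X t n) b).card : ℝ) ≤ l * (S (X.sc n)).θ * d
  excN : ∀ n, X.P.ty n = Ty.N → ∀ i, ∑ b ∈ range (d + 2),
    max (|((sgp (Fp (xt G X) X t n) (sdn X.P n) (ptn X.P n) i b : ℤ) : ℝ)| - 4) 0 ≤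
      x * (pV X.P n).card
  supN : ∀ n, X.P.ty n = Ty.N → ∀ i, ∀ b ∈ range (d + 2),
    |((sgp (Fp (xt G X) X t n) (sdn X.P n) (ptn X.P n) i b : ℤ) : ℝ)| ≤ (d : ℝ) ^ (1 / 100 : ℝ)

/-- Numbers of the colours at the pieces of type B (pieces, not parts). `K` constant, `l` loads, `x` sum
of the signed numbers above `K`, `y` total needs, `q` needs of the colours of `Q j` at the side `false`,
`r` fraction of the colours of `Q j` which occur in the part `j`, `u` all signed numbers. -/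
structure NuB (K : ℕ) (l x y q r u : ℝ) (S : Fin J → Scl) (G : SimpleGraph V) (d : ℕ)
    (X : XD V N J) (A : PalX) (t : V → V → ℕ) : Prop where
  rB : ∀ n, X.P.ty n = Ty.B → ∀ j, (((A.Q j).filter (fun b => ∃ v : Ts X.P n,
    ptn X.P n v = j ∧ b ∈ Fp (xt G X) X t n v)).card : ℝ) ≤ r * (A.Q j).card
  ldB : ∀ n, X.P.ty n = Ty.B → ∀ b,
    ((us (Fp (xt G X) X t n) b).card : ℝ) ≤ l * (S (X.sc n)).θ * d
  excB : ∀ n, X.P.ty n = Ty.B → ∑ b ∈ range (d + 2),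
    max (|((sg (Fp (xt G X) X t n) (sdn X.P n) b : ℤ) : ℝ)| - K) 0 ≤ x * (pV X.P n).card
  supB : ∀ n, X.P.ty n = Ty.B → ∀ b ∈ range (d + 2),
    |((sg (Fp (xt G X) X t n) (sdn X.P n) b : ℤ) : ℝ)| ≤ u * d
  totB : ∀ n, X.P.ty n = Ty.B → ∀ β, ((∑ b ∈ range (d + 2),
    need (Fp (xt G X) X t n) (sdn X.P n) β b : ℕ) : ℝ) ≤ y * (sV X.P n β).card
  negB : ∀ n, X.P.ty n = Ty.B → ∀ j, ((∑ b ∈ A.Q j,
    min (need (Fp (xt G X) X t n) (sdn X.P n) false b) K : ℕ) : ℝ) ≤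
      (3 / 5 + q * (sV X.P n false).card / d) * (A.Q j).card

/-- Result of the outside stage, version 4: `exc` small. `m`: a missing colour of every covering
vertex. -/
structure PreX4 (πk η τ e : ℝ) (S : Fin J → Scl) (G : SimpleGraph V) (d : ℕ)
    (X : XD V N J) (A : PalX) (t : V → V → ℕ) (c : V → ℕ) (m : V → ℕ) : Prop
    extends TcX η G d X A t, OwX τ e (1 / 250) S G d X t c (Ow G X d),
      NuX 100 ((1 - 3 * πk) / 10 ^ 7) (4 / 5) (1 / 400) S G d X A t where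
  sup : ∀ n, X.P.ty n = Ty.N ∨ X.P.ty n = Ty.B → ∀ i, ∀ b ∈ range (d + 2),
    |((sgp (Fp (xt G X) X t n) (sdn X.P n) (ptn X.P n) i b : ℤ) : ℝ)| ≤ (d : ℝ) ^ (1 / 100 : ℝ)
  mm : ∀ w, Cov G X d w → m w < d + 2 ∧ m w ∉ Ft (xt G X) t w ∧ ∀ j, m w ∉ A.Q j
  ms : ∀ n β b, ((univ.filter (fun w => Cvr G X d n β w ∧ m w = b)).card : ℝ) ≤
    (d : ℝ) ^ (1 / 200 : ℝ)

/-- Result of RGX4. `Ex v` = exceptional colours of the vertex `v`. -/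
structure RgX4 (πk C a η τ e : ℝ) (S : Fin J → Scl) (G : SimpleGraph V) (d : ℕ)
    (X : XD V N J) (A : PalX) (t : V → V → ℕ) (c : V → ℕ) (Ex : V → Finset ℕ) : Prop
    extends TcX η G d X A t, OwX τ e (1 / 125) S G d X t c (fun v => v ∈ X.P.V0),
      NuN 100 ((1 - 3 * πk) / 10 ^ 7) S G d X A t,
      NuB (KX4 C πk) 300 ((1 - 3 * πk) / 10 ^ 6) (5 / 6) (1 / 300) (1 / 10) (2 * a) S G d X A t where
  cvt : ∀ n β w, Cvr G X d n β w →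
    |((sg (Fp (xt G X) X t n) (sdn X.P n) (c w) : ℤ) : ℝ)| ≤ 1000 * (C + 5)
  rgF : ∀ n w, X.P.rg w = some (n, false) → 0 ≤ sg (Fp (xt G X) X t n) (sdn X.P n) (c w)
  exn : ∀ n, X.P.ty n = Ty.B → ∀ b, ((pV X.P n).filter (fun v => b ∈ Ex v)).card ≤ 2
  tame : ∀ v w b, Te G X v w → b < d + 2 → b ∉ Ft (xt G X) t v → b ∉ Ft (xt G X) t w →
    b ∉ Ex v → b ∉ Ex w →
    KX4 C πk < need (Fp (xt G X) X t (X.P.pc v)) (sdn X.P (X.P.pc v)) (X.P.sd v) b →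
    KX4 C πk < need (Fp (xt G X) X t (X.P.pc w)) (sdn X.P (X.P.pc w)) (X.P.sd w) b →
    need (Fp (xt G X) X t (X.P.pc v)) (sdn X.P (X.P.pc v)) (X.P.sd v) b +
          need (Fp (xt G X) X t (X.P.pc w)) (sdn X.P (X.P.pc w)) (X.P.sd w) b ≤
        5 * need (Fp (xt G X) X t (X.P.pc v)) (sdn X.P (X.P.pc v)) (X.P.sd v) (t v w) ∨
      need (Fp (xt G X) X t (X.P.pc v)) (sdn X.P (X.P.pc v)) (X.P.sd v) b +
          need (Fp (xt G X) X t (X.P.pc w)) (sdn X.P (X.P.pc w)) (X.P.sd w) b ≤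
        5 * need (Fp (xt G X) X t (X.P.pc w)) (sdn X.P (X.P.pc w)) (X.P.sd w) (t v w)

/-- Result of SELP4: palettes of the pieces of type N (as before) and B (`bdd`, `ng`: bounded signed
numbers, no large needs in `Qn n j`). -/
structure SelX4 (K : ℕ) (g : ℝ) (x : Fin J → ℝ) (S : Fin J → Scl) (G : SimpleGraph V) (d : ℕ)
    (X : XD V N J) (t : V → V → ℕ) (c : V → ℕ)
    (Qn : Fin N → Bool → Finset ℕ) (P2n : Fin N → Finset ℕ) : Prop where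
  Qlt : ∀ n, X.P.ty n = Ty.N ∨ X.P.ty n = Ty.B → ∀ i, Qn n i ⊆ range (d + 2)
  Plt : ∀ n, X.P.ty n = Ty.N ∨ X.P.ty n = Ty.B → P2n n ⊆ range (d + 2)
  QQ : ∀ n, X.P.ty n = Ty.N ∨ X.P.ty n = Ty.B → Disjoint (Qn n false) (Qn n true)
  QP : ∀ n, X.P.ty n = Ty.N ∨ X.P.ty n = Ty.B → ∀ i, Disjoint (Qn n i) (P2n n)
  Qc : ∀ n, X.P.ty n = Ty.N ∨ X.P.ty n = Ty.B → ∀ i, (S (X.sc n)).κ * d ≤ ((Qn n i).card : ℝ) ∧
    ((Qn n i).card : ℝ) ≤ 2 * (S (X.sc n)).κ * d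
  Pc : ∀ n, X.P.ty n = Ty.N ∨ X.P.ty n = Ty.B → (S (X.sc n)).π * d ≤ ((P2n n).card : ℝ) ∧
    ((P2n n).card : ℝ) ≤ 2 * (S (X.sc n)).π * d
  rQn : ∀ n, X.P.ty n = Ty.N ∨ X.P.ty n = Ty.B → ∀ v,
    Disjoint (Fp (xt G X) X t n v) (Qn n (X.P.pt v.1))
  -- type N
  smN : ∀ n, X.P.ty n = Ty.N → ∀ i, |((∑ b ∈ Qn n (!i) ∪ P2n n,
    sgp (Fp (xt G X) X t n) (sdn X.P n) (ptn X.P n) i b : ℤ) : ℝ)| ≤ x (X.sc n) * d
  lN : ∀ n, X.P.ty n = Ty.N → ∀ i, ∑ b ∈ Qn n (!i) ∪ P2n n,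
    |((sgp (Fp (xt G X) X t n) (sdn X.P n) (ptn X.P n) i b : ℤ) : ℝ)| ≤ g / 400 * d
  -- type B
  bdd : ∀ n, X.P.ty n = Ty.B → ∀ b ∈ Qn n false ∪ Qn n true ∪ P2n n,
    |sg (Fp (xt G X) X t n) (sdn X.P n) b| ≤ (K : ℤ)
  ng : ∀ n, X.P.ty n = Ty.B → ∀ j, ∀ b ∈ Qn n j, -((sV X.P n false).card : ℝ) ≤
    10 * d * ((sg (Fp (xt G X) X t n) (sdn X.P n) b : ℤ) : ℝ)
  rgP : ∀ n w, X.P.rg w = some (n, true) → c w ∈ P2n n
  rgQ : ∀ n w, X.P.rg w = some (n, false) → c w ∉ P2n n ∧ ∀ i, c w ∉ Qn n i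

/-- Reserved vertices `U` of the short pieces of type K, own colour `cR`; `O` = vertices which have
got their own colour `c`. `Ub`: colours which are not reserved in the piece `n` are own colours of few
reserved neighbours in other pieces. -/
structure RsvX (η' e : ℝ) (G : SimpleGraph V) (d : ℕ) (X : XD V N J) (t : V → V → ℕ) (c : V → ℕ)
    (O : V → Prop) (U : Finset V) (cR : V → ℕ) : Prop where
  UK : ∀ y ∈ U, Lk X y ∧ (pV X.P (X.P.pc y)).card < d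
  Uc : ∀ n, X.P.ty n = Ty.K → ((pV X.P n ∩ U).card : ℝ) ≤ η' * d
  Ui : ∀ y ∈ U, ∀ y' ∈ U, X.P.pc y = X.P.pc y' → cR y = cR y' → y = y'
  Ua : ∀ y ∈ U, ∀ y' ∈ U, G.Adj y y' → cR y ≠ cR y'
  Ul : ∀ y ∈ U, cR y < d + 2
  Uf : ∀ y ∈ U, cR y ∉ Ft (xt G X) t y
  Uo : ∀ y ∈ U, ∀ w, O w → G.Adj y w → c w ≠ cR y
  Ub : ∀ n, X.P.ty n = Ty.K → (pV X.P n).card < d → ∀ b,
    (∀ y ∈ U, X.P.pc y = n → cR y ≠ b) →
    ((∑ y ∈ U.filter (fun y => X.P.pc y ≠ n ∧ cR y = b), (nb G y ∩ pV X.P n).card : ℕ) : ℝ) ≤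
      e * d

/-- Result of OCB4: own colours `c0`, `c1`, `T1`, `T2` of the pieces of type B, as in `LB4`; reserved
vertices `U`, `cR`. -/
structure OcbX4 (τ e η' : ℝ) (K : ℕ) (x : Fin J → ℝ) (S : Fin J → Scl) (G : SimpleGraph V)
    (d : ℕ) (X : XD V N J) (t : V → V → ℕ) (c : V → ℕ) (Qn : Fin N → Bool → Finset ℕ)
    (P2n : Fin N → Finset ℕ) (c0 c1 : V → ℕ) (T1 T2 : Finset V) (U : Finset V) (cR : V → ℕ) :
    Prop extends RsvX η' e G d X t c (Owd X) U cR where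
  TB : ∀ v ∈ T1 ∪ T2, InT X Ty.B v
  T12 : Disjoint T1 T2
  c0Q : ∀ v, InT X Ty.B v → v ∉ T1 → c0 v ∈ Qn (X.P.pc v) (X.P.pt v)
  c1P : ∀ v ∈ T1, c1 v ∈ P1 d (Qn (X.P.pc v)) (P2n (X.P.pc v))
  c2P : ∀ v ∈ T2, X.P.sd v = false ∧
    c1 v ∈ P2n (X.P.pc v) ∪ Qn (X.P.pc v) (!(X.P.pt v))
  c1F : ∀ v ∈ T1 ∪ T2, c1 v ∉ Ft (xt G X) t v
  pcc : ∀ v w, InT X Ty.B v → InT X Ty.B w → G.Adj v w →
    Disjoint (oc c0 c1 T1 T2 v) (oc c0 c1 T1 T2 w)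
  pco : ∀ v w, InT X Ty.B v → Owd X w → G.Adj v w → c w ∉ oc c0 c1 T1 T2 v
  bal : ∀ n, X.P.ty n = Ty.B → ∀ β, ∀ b ∈ P1 d (Qn n) (P2n n),
    need (Fo (Tn X n T1) (fun v => c1 v.1) (Fp (xt G X) X t n)) (sdn X.P n) β b = 0
  T1c : ∀ n, X.P.ty n = Ty.B → ∀ b,
    (((Tn X n T1).filter (fun v => c1 v.1 = b)).card : ℝ) ≤ x (X.sc n) * d
  hlf : ∀ n, X.P.ty n = Ty.B → ∀ β,
    |((Tn X n T1 ∩ qtr (sdn X.P n) (ptn X.P n) β false).card : ℝ) -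
      (Tn X n T1 ∩ qtr (sdn X.P n) (ptn X.P n) β true).card| ≤ x (X.sc n) * d
  unm : ∀ n, X.P.ty n = Ty.B → ∀ v : Ts X.P n, (d : ℝ) / 1000 ≤
    (((nb (bk G X.P n) v ∩ prt (ptn X.P n) (ptn X.P n v)) \ (Tn X n T1 ∪ Tn X n T2)).card : ℝ)
  n2 : ∀ n, X.P.ty n = Ty.B → ∀ i, ∀ b ∈ P2n n,
    5 * K + 5 ≤ ((Tn X n T2).filter (fun v => ptn X.P n v = i ∧ c1 v.1 = b)).card
  nQ : ∀ n, X.P.ty n = Ty.B → ∀ i, ∀ b ∈ Qn n (!i),
    0 ≤ (((Tn X n T2).filter (fun v => ptn X.P n v = i ∧ c1 v.1 = b)).card : ℤ) +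
      sg (Fp (xt G X) X t n) (sdn X.P n) b
  -- pieces of type K
  rsv : ∀ y ∈ U, ∀ w, InT X Ty.B w → G.Adj y w → cR y ∉ oc c0 c1 T1 T2 w
  non : ∀ n, X.P.ty n = Ty.K → (pV X.P n).card < d → ∀ b,
    (∀ y ∈ U, X.P.pc y = n → cR y ≠ b) →
    ((∑ w ∈ univ.filter (fun w => InT X Ty.B w ∧ b ∈ oc c0 c1 T1 T2 w ∧
      ((nb G w ∩ pV X.P n).card : ℝ) < τ * d), (nb G w ∩ pV X.P n).card : ℕ) : ℝ) ≤ e * d

/-- The situation before the pieces of type K: everything else is coloured. -/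
structure PosX4 (η η' τ e : ℝ) (G : SimpleGraph V) (d : ℕ) (X : XD V N J) (A : PalX)
    (t : V → V → ℕ) (c : V → ℕ) (U : Finset V) (cR : V → ℕ) : Prop
    extends RsvX η' e G d X t c (fun v => ¬ InT X Ty.K v) U cR where
  sym : ∀ v w, t v w = t w v
  lt : ∀ v w, (xo G X).Adj v w → t v w < d + 2
  inj : ∀ v, Set.InjOn (t v) (nb (xo G X) v : Set V)
  clt : ∀ v, ¬ InT X Ty.K v → c v < d + 2
  cc : ∀ v w, ¬ InT X Ty.K v → ¬ InT X Ty.K w → G.Adj v w → c v ≠ c w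
  ct : ∀ v, ¬ InT X Ty.K v → c v ∉ Ft (xo G X) t v
  rK : ∀ v, Lk X v → Disjoint (Ft (xo G X) t v) (A.C (X.P.th v))
  lK : ∀ n, X.P.ty n = Ty.K → ∀ b, (((pV X.P n).filter (fun v => v ∉ X.Hv ∧
    b ∈ Ft (xo G X) t v)).card : ℝ) ≤ η * d
  dif : ∀ n, X.P.ty n = Ty.K → (pV X.P n).card < d → ∀ w w', ¬ InT X Ty.K w →
    ¬ InT X Ty.K w' → w ≠ w' →
    τ * d ≤ ((nb G w ∩ pV X.P n).card : ℝ) → τ * d ≤ ((nb G w' ∩ pV X.P n).card : ℝ) →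
    c w ≠ c w'
  non : ∀ n, X.P.ty n = Ty.K → (pV X.P n).card < d → ∀ b,
    (∀ y ∈ U, X.P.pc y = n → cR y ≠ b) →
    ((∑ w ∈ univ.filter (fun w => ¬ InT X Ty.K w ∧ c w = b ∧
      ((nb G w ∩ pV X.P n).card : ℝ) < τ * d), (nb G w ∩ pV X.P n).card : ℕ) : ℝ) ≤ e * d

end defs

section loc
variable {V : Type u} [Fintype V]

/-- Input of LOCB4: numbers of the piece, not of the parts. -/
structure LB4 (G : SimpleGraph V) (d K : ℕ) (C ρ π κ θ : ℝ) (sd pt : V → Bool)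
    (Q : Bool → Finset ℕ) (P2 : Finset ℕ) (F : V → Finset ℕ) (c0 c1 : V → ℕ)
    (T1 T2 : Finset V) : Prop where
  VC : (Fintype.card V : ℝ) ≤ C * d
  Flt : ∀ v, ∀ b ∈ F v, b < d + 2
  Fx : ∀ v, ((F v).card : ℝ) ≤ θ * d
  load : ∀ b, ((us F b).card : ℝ) ≤ θ * d
  Qlt : ∀ i, Q i ⊆ range (d + 2)
  Plt : P2 ⊆ range (d + 2)
  QQ : Disjoint (Q false) (Q true)
  QP : ∀ i, Disjoint (Q i) P2
  Qc : ∀ i, κ * d ≤ ((Q i).card : ℝ) ∧ ((Q i).card : ℝ) ≤ 2 * κ * d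
  Pc : π * d ≤ (P2.card : ℝ) ∧ (P2.card : ℝ) ≤ 2 * π * d
  FQ : ∀ v, Disjoint (F v) (Q (pt v))
  sgK : ∀ b ∈ Q false ∪ Q true ∪ P2, |sg F sd b| ≤ (K : ℤ)
  cutG : ∀ S : Finset V, ρ * S.card * (univ \ S).card ≤ ∑ v ∈ S, ((nb G v \ S).card : ℝ)
  cutP : ∀ i, ∀ S ⊆ prt pt i, ρ * S.card * (prt pt i \ S).card ≤
    ∑ v ∈ S, (((nb G v \ S) ∩ qtr sd pt (!(sd v)) i).card : ℝ)
  bip : ∀ v w, G.Adj v w → sd v ≠ sd w
  deg : ∀ v, (nb G v).card + (F v).card = d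
  dgp : ∀ v i, |((nb G v ∩ prt pt i).card : ℝ) - d / 2| ≤ θ * d
  eqs : ∀ i, (qtr sd pt false i).card = (qtr sd pt true i).card
  siz : ∀ i, (qtr sd pt false i).card ≤ (qtr sd pt false (!i)).card + 1
  T12 : Disjoint T1 T2
  c0Q : ∀ v, v ∉ T1 → c0 v ∈ Q (pt v)
  c1P : ∀ v ∈ T1, c1 v ∈ P1 d Q P2
  c2P : ∀ v ∈ T2, sd v = false ∧ c1 v ∈ P2 ∪ Q (!(pt v))
  c1F : ∀ v ∈ T1 ∪ T2, c1 v ∉ F v
  pc : ∀ v w, G.Adj v w → pt v = pt w → Disjoint (oc c0 c1 T1 T2 v) (oc c0 c1 T1 T2 w)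
  T1c : ∀ b, ((T1.filter (fun v => c1 v = b)).card : ℝ) ≤ θ * d
  bal : ∀ β, ∀ b ∈ P1 d Q P2, need (Fo T1 c1 F) sd β b = 0
  hlf : ∀ β, |((T1 ∩ qtr sd pt β false).card : ℝ) - (T1 ∩ qtr sd pt β true).card| ≤ θ * d
  unm : ∀ v, ρ * d ≤ (((nb G v ∩ prt pt (pt v)) \ (T1 ∪ T2)).card : ℝ)
  n2 : ∀ i, ∀ b ∈ P2, 5 * K + 5 ≤ (T2.filter (fun v => pt v = i ∧ c1 v = b)).card
  nQ : ∀ i, ∀ b ∈ Q (!i),
    0 ≤ ((T2.filter (fun v => pt v = i ∧ c1 v = b)).card : ℤ) + sg F sd b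

end loc

/-! ## Blocks -/

/-- LOCB4 (from LOCB3; owner of XPE). PROOF. XPE: colours of `P2` for a few bulk edges `E'` between the
parts (`false, 0 - true, 1` resp. `false, 1 - true, 0`): for `b ∈ P2` choose a matching of
`|g b - sgp 0 b|` such edges (of the first kind if `g b > sgp 0 b`), disjoint from `us F b`, from
the vertices of `T2` with `c1 = b` and from the chosen edges, every vertex in at most `10 ^ 3 θ d` of
them (greedy, one colour after the other: `|sgp 0 b| ≤ θ d`, at most `2 π d (θ + ..) d` edges, so at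
most `π d` saturated vertices of every quarter, `dgp`). Then `sgp 0 b = g b` and
`sgp 1 b = sg b - g b` for `F' v = F v ∪ {colours of E' at v}`; `g b` = integers with
`|g b| ≤ 4 K + 1` and `Σ_(b ∈ P2) g b + Σ_(b ∈ Q true) sg b = |T1 ∩ q false 0| - |T1 ∩ q true 0|` up to
`θ d` (possible: `|T1 ∩ side false| - |T1 ∩ side true| = Σ_(b not in P1) sg b`, from `bal` and
`Σ_all sg b = 0` (count the edges of `G`), so by `hlf` the number on the right is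
`1 / 2 Σ_(b not in P1) sg b ± θ d`, of absolute value at most `(2 κ + π) K d + θ d`; `κ ≤ π / 4`).
LOCB3 for `G \ E'`, `F'`, `ρ / 2` (`π0` with `20 K π0 ≤ ρ / 1000`; `sl1`; `cutG` since the degrees of
`E'` are at most `10 ^ 3 θ d`; `n2` since `|sgp| ≤ 5 K + 2`). -/
def Stmt_LOCB4 : Prop :=
  ∀ (C ρ : ℝ) (K : ℕ), 1 ≤ C → 0 < ρ → ρ ≤ 1 → 1 ≤ K → ∃ π0 : ℝ, 0 < π0 ∧
    ∀ π : ℝ, 0 < π → π ≤ π0 → ∃ κ0 : ℝ, 0 < κ0 ∧ ∀ κ : ℝ, 0 < κ → κ ≤ κ0 →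
    ∃ (θ : ℝ) (d0 : ℕ), 0 < θ ∧
    ∀ {V : Type u} [Fintype V] (G : SimpleGraph V) (d : ℕ) (sd pt : V → Bool)
      (Q : Bool → Finset ℕ) (P2 : Finset ℕ) (F : V → Finset ℕ) (c0 c1 : V → ℕ)
      (T1 T2 : Finset V), d0 ≤ d →
      LB4 G d K C ρ π κ θ sd pt Q P2 F c0 c1 T1 T2 →
      ∃ (c : V → ℕ) (t : V → V → ℕ), (∀ v, c v ∈ oc c0 c1 T1 T2 v) ∧
        PEF G d (fun v => insert (c v) (F v)) t

/-- RGX4 (owner helper38; from REC0 with `δ` = gains of RGX). -/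
def Stmt_RGX4 : Prop :=
  ∀ (πk C g z τ e : ℝ) (M : ℕ), 1 / 4 ≤ πk → πk < 1 / 3 → 1 ≤ C → 0 < g → g ≤ 1 / 10 → 0 < z → z ≤ 1 / 10 → 0 < τ →
    64 * τ ≤ e → ∃ T : Thr, T.Pos ∧
    ∀ (J : ℕ) (S : Fin J → Scl) (c' : ℝ), (∀ s, Adm T (S s)) → 0 < c' → c' ≤ 1 / 2 → ∃ d0 : ℕ,
    ∀ {V : Type u} [Fintype V] {N : ℕ} (G : SimpleGraph V) (d : ℕ) (X : XD V N J) (A : PalX)
      (t : V → V → ℕ) (c m : V → ℕ) (θk θ' η : ℝ), d0 ≤ d →
      PcX C g z θk θ' η ((d : ℝ) ^ (-c')) M S G d X → PalXP πk A d →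
      PreX4 πk η τ (e / 8) S G d X A t c m →
      ∃ (t1 : V → V → ℕ) (c1 : V → ℕ) (Ex : V → Finset ℕ),
        RgX4 πk C ((d : ℝ) ^ (-c')) η τ (e / 4) S G d X A t1 c1 Ex

/-- SELP4 (owner helper59). Type N as in SELP. Type B, no random choice: `Qn n j` = any set of
`⌈κ d⌉` colours of `A.Q j` which do not occur in the part `j`, have `|sg| ≤ K`, `- |side| ≤ 10 d sg`
and are no own colours of covering vertices (at least `|Q j| / 10` colours have all this: `rB`,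
`totB`, `negB`); `P2n n` = `⌈π d⌉` colours outside `Qn`, `|sg| ≤ K`, among them all own colours of
covering vertices except those rigid for the side `false`, and none of the latter. -/
def Stmt_SELP4 : Prop :=
  ∀ (πk C g z τ e : ℝ) (M : ℕ) (x : ℝ → ℝ → ℝ → ℝ), 1 / 4 ≤ πk → πk < 1 / 3 → 1 ≤ C → 0 < g → g ≤ 1 / 10 → 0 < z →
    z ≤ 1 / 10 → 0 < τ → 64 * τ ≤ e → (∀ ρ π κ, 0 < ρ → 0 < π → 0 < κ → 0 < x ρ π κ) →
    ∃ T : Thr, T.Pos ∧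
    ∀ (J : ℕ) (S : Fin J → Scl) (c' : ℝ), (∀ s, Adm T (S s)) → 0 < c' → c' ≤ 1 / 2 → ∃ d0 : ℕ,
    ∀ {V : Type u} [Fintype V] {N : ℕ} (G : SimpleGraph V) (d : ℕ) (X : XD V N J) (A : PalX)
      (t : V → V → ℕ) (c : V → ℕ) (Ex : V → Finset ℕ) (θk θ' η : ℝ), d0 ≤ d →
      PcX C g z θk θ' η ((d : ℝ) ^ (-c')) M S G d X → PalXP πk A d →
      RgX4 πk C ((d : ℝ) ^ (-c')) η τ (e / 4) S G d X A t c Ex →
      ∃ (Qn : Fin N → Bool → Finset ℕ) (P2n : Fin N → Finset ℕ),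
        SelX4 (KX4 C πk) g (fun s => x (S s).ρ (S s).π (S s).κ) S G d X t c Qn P2n

/-- OWNX4 (owner helper62; as OWNX). -/
def Stmt_OWNX4 : Prop :=
  ∀ (πk C g z τ e : ℝ) (M : ℕ), 1 / 4 ≤ πk → πk < 1 / 3 → 1 ≤ C → 0 < g → g ≤ 1 / 10 → 0 < z → z ≤ 1 / 10 → 0 < τ →
    64 * τ ≤ e → ∃ T : Thr, T.Pos ∧
    ∀ (J : ℕ) (S : Fin J → Scl) (c' : ℝ), (∀ s, Adm T (S s)) → 0 < c' → c' ≤ 1 / 2 → ∃ d0 : ℕ,
    ∀ {V : Type u} [Fintype V] {N : ℕ} (G : SimpleGraph V) (d : ℕ) (X : XD V N J) (A : PalX)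
      (t : V → V → ℕ) (c : V → ℕ) (Ex : V → Finset ℕ) (Qn : Fin N → Bool → Finset ℕ)
      (P2n : Fin N → Finset ℕ)
      (x : Fin J → ℝ) (θk θ' η : ℝ), d0 ≤ d →
      PcX C g z θk θ' η ((d : ℝ) ^ (-c')) M S G d X → PalXP πk A d →
      RgX4 πk C ((d : ℝ) ^ (-c')) η τ (e / 4) S G d X A t c Ex →
      SelX4 (KX4 C πk) g x S G d X t c Qn P2n →
      ∃ cN : V → ℕ, OwnX τ (e / 2) S G d X t c Qn P2n cN

/-- OCB4 (owner helper1; RSV, SLT, LRG, BAS): the own colours of all pieces of type B, reserved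
vertices. `η'` arbitrary. -/
def Stmt_OCB4 : Prop :=
  ∀ (πk C g z τ e η' : ℝ) (M : ℕ) (x : ℝ → ℝ → ℝ → ℝ), 1 / 4 ≤ πk → πk < 1 / 3 → 1 ≤ C → 0 < g → g ≤ 1 / 10 → 0 < z →
    z ≤ 1 / 10 → 0 < τ → 64 * τ ≤ e → e ≤ z / 4 → 0 < η' →
    (∀ ρ π κ, 0 < ρ → 0 < π → 0 < κ → 0 < x ρ π κ) →
    ∃ T : Thr, T.Pos ∧
    ∀ (J : ℕ) (S : Fin J → Scl) (c' : ℝ), (∀ s, Adm T (S s)) → 0 < c' → c' ≤ 1 / 2 → ∃ d0 : ℕ,
    ∀ {V : Type u} [Fintype V] {N : ℕ} (G : SimpleGraph V) (d : ℕ) (X : XD V N J) (A : PalX)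
      (t : V → V → ℕ) (c : V → ℕ) (Ex : V → Finset ℕ) (Qn : Fin N → Bool → Finset ℕ)
      (P2n : Fin N → Finset ℕ)
      (cN : V → ℕ) (x0 : Fin J → ℝ) (θk θ' η : ℝ), d0 ≤ d → θk ≤ 1 / 100 → θ' ≤ z / 100 →
      η ≤ z / 100 → (∀ v ∈ X.Hv, InT X Ty.K v) →
      PcX C g z θk θ' η ((d : ℝ) ^ (-c')) M S G d X → PalXP πk A d →
      RgX4 πk C ((d : ℝ) ^ (-c')) η τ (e / 4) S G d X A t c Ex →
      SelX4 (KX4 C πk) g x0 S G d X t c Qn P2n →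
      OwnX τ (e / 2) S G d X t c Qn P2n cN →
      ∃ (c0 c1 : V → ℕ) (T1 T2 : Finset V) (U : Finset V) (cR : V → ℕ),
        OcbX4 τ (e / 2) η' (KX4 C πk) (fun s => x (S s).ρ (S s).π (S s).κ) S G d X t cN Qn P2n
          c0 c1 T1 T2 U cR

/-- BX4 (owner helper62; from RGX4, SELP4, OWNX4, OCB4, LOCB4, LOCN3). -/
def Stmt_BX4 : Prop :=
  ∀ (πk C g z τ e η' : ℝ) (M : ℕ), 1 / 4 ≤ πk → πk < 1 / 3 → 1 ≤ C → 0 < g → g ≤ 1 / 10 → 0 < z → z ≤ 1 / 10 → 0 < τ →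
    64 * τ ≤ e → e ≤ z / 4 → 0 < η' → ∃ T : Thr, T.Pos ∧
    ∀ (J : ℕ) (S : Fin J → Scl) (c' : ℝ), (∀ s, Adm T (S s)) → 0 < c' → c' ≤ 1 / 2 → ∃ d0 : ℕ,
    ∀ {V : Type u} [Fintype V] {N : ℕ} (G : SimpleGraph V) (d : ℕ) (X : XD V N J) (A : PalX)
      (t : V → V → ℕ) (c m : V → ℕ) (θk θ' η : ℝ), d0 ≤ d → θk ≤ 1 / 100 → θ' ≤ z / 100 →
      η ≤ z / 100 → (∀ v ∈ X.Hv, InT X Ty.K v) →
      PcX C g z θk θ' η ((d : ℝ) ^ (-c')) M S G d X → PalXP πk A d →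
      PreX4 πk η τ (e / 8) S G d X A t c m →
      ∃ (t1 : V → V → ℕ) (c1 : V → ℕ) (U : Finset V) (cR : V → ℕ),
        PosX4 η η' τ e G d X A t1 c1 U cR

/-- KX4 (from KR): all pieces of type K are finished. -/
def Stmt_KX4 : Prop :=
  ∃ (πk θk : ℝ), 1 / 4 ≤ πk ∧ πk < 1 / 3 ∧ 0 < θk ∧ θk ≤ 1 / 100 ∧
    ∀ z : ℝ, 0 < z → z ≤ 1 → ∃ (θ' η e η' : ℝ) (d0 : ℕ), 0 < θ' ∧ θ' ≤ z / 100 ∧ 0 < η ∧
      η ≤ z / 100 ∧ 0 < e ∧ e ≤ z / 4 ∧ 0 < η' ∧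
    ∀ (C g τ a : ℝ) (M J : ℕ) (S : Fin J → Scl) {V : Type u} [Fintype V] {N : ℕ}
      (G : SimpleGraph V) (d : ℕ) (X : XD V N J) (A : PalX) (t : V → V → ℕ) (c : V → ℕ)
      (U : Finset V) (cR : V → ℕ),
      d0 ≤ d → PcX C g z θk θ' η a M S G d X → PalXP πk A d →
      PosX4 η η' τ e G d X A t c U cR →
      ∃ (c1 : V → ℕ) (t1 : V → V → ℕ), TotX d G c1 t1

end Pool.Agent.Work.MP_db9399_x4
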